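import Pool.Agent.X302.TR.Stm

/-! Part FLAG of project TR (MP_0e8110_lc). -/

set_option autoImplicit false

namespace Pool.Agent.X191.TR

open Filter Topology Pool.Agent.X302.TR

theorem conv_of_bdd {n : ℕ} (U : Ultrafilter ℕ) (x : ℕ → V n) (M : ℝ)
    (h : ∀ᶠ k in (U : Filter ℕ), ‖x k‖ ≤ M) : ∃ y0, Tendsto x U (𝓝 y0) := by
  have h1 : IsCompact (Metric.closedBall (0 : V n) M) := isCompact_closedBall 0 M
  have h2 : ((U.map x : Ultrafilter (V n)) : Filter (V n)) ≤
      𝓟 (Metric.closedBall (0 : V n) M) := by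
    rw [le_principal_iff]
    show ∀ᶠ k in (U : Filter ℕ), x k ∈ Metric.closedBall (0 : V n) M
    filter_upwards [h] with k hk
    rw [mem_closedBall_zero_iff]
    exact hk
  obtain ⟨y0, -, hy⟩ := h1.ultrafilter_le_nhds (U.map x) h2
  exact ⟨y0, hy⟩

theorem flag_aux (n : ℕ) (U : Ultrafilter ℕ) : ∀ r : ℕ, ∀ W : Submodule ℝ (V n),
    Module.finrank ℝ W = r → ∀ x : ℕ → V n, (∀ᶠ k in (U : Filter ℕ), x k ∈ W) →
    ∃ (m : ℕ) (d : ℕ → V n) (lam : ℕ → ℕ → ℝ) (y : ℕ → V n) (y0 : V n),
    (∀ᶠ k in (U : Filter ℕ), x k = ∑ i ∈ Finset.range m, lam i k • d i + y k) ∧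
    (∀ i < m, Tendsto (lam i) U atTop) ∧
    (∀ i, i + 1 < m → Tendsto (fun k => lam (i + 1) k / lam i k) U (𝓝 0)) ∧
    (0 < m → d 0 ≠ 0) ∧ Tendsto y U (𝓝 y0) ∧
    (0 < m → ∃ K : ℝ, ∀ᶠ k in (U : Filter ℕ), |lam 0 k| ≤ K * ‖x k‖) := by
  intro r
  induction r using Nat.strong_induction_on with
  | _ r ih =>
  intro W hW x hx
  by_cases hb : ∃ M : ℝ, ∀ᶠ k in (U : Filter ℕ), ‖x k‖ ≤ M
  · obtain ⟨M, hM⟩ := hb
    obtain ⟨y0, hy⟩ := conv_of_bdd U x M hM
    refine ⟨0, fun _ => 0, fun _ _ => 0, x, y0, ?_, ?_, ?_, ?_, hy, ?_⟩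
    · exact Eventually.of_forall fun k => by simp
    · intro i hi; omega
    · intro i hi; omega
    · intro h; omega
    · intro h; omega
  · push Not at hb
    have hinf : Tendsto (fun k => ‖x k‖) U atTop := by
      rw [tendsto_atTop]
      intro M
      exact (hb M).mono fun k hk => le_of_lt hk
    have hpos : ∀ᶠ k in (U : Filter ℕ), 0 < ‖x k‖ := hinf.eventually (eventually_gt_atTop 0)
    obtain ⟨d0, hd0⟩ := conv_of_bdd U (fun k => ‖x k‖⁻¹ • x k) 1 (by
      filter_upwards [hpos] with k hk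
      rw [norm_smul, norm_inv, norm_norm, inv_mul_cancel₀ hk.ne'])
    have hnorm : ‖d0‖ = 1 := by
      refine tendsto_nhds_unique hd0.norm ?_
      refine tendsto_const_nhds.congr' ?_
      filter_upwards [hpos] with k hk
      rw [norm_smul, norm_inv, norm_norm, inv_mul_cancel₀ hk.ne']
    have hd0n : d0 ≠ 0 := by
      intro h
      rw [h, norm_zero] at hnorm
      exact zero_ne_one hnorm
    have hd0W : d0 ∈ W := by
      have hcl : IsClosed (W : Set (V n)) := W.closed_of_finiteDimensional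
      refine hcl.mem_of_tendsto hd0 ?_
      filter_upwards [hx] with k hk
      exact W.smul_mem _ hk
    obtain ⟨j, hj⟩ : ∃ j, d0 j ≠ 0 := by
      by_contra hcon
      push Not at hcon
      exact hd0n (funext hcon)
    have huj : Tendsto (fun k => ‖x k‖⁻¹ * x k j) U (𝓝 (d0 j)) := by
      have := (tendsto_pi_nhds.mp hd0) j
      simpa using this
    have hratio : Tendsto (fun k => (‖x k‖⁻¹ * x k j) / d0 j) U (𝓝 1) := by
      have := huj.div_const (d0 j)
      rwa [div_self hj] at this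
    have hlam : Tendsto (fun k => x k j / d0 j) U atTop := by
      have h1 := hinf.atTop_mul_pos one_pos hratio
      refine h1.congr' ?_
      filter_upwards [hpos] with k hk
      field_simp
    -- the next vector
    set x' : ℕ → V n := fun k => x k - (x k j / d0 j) • d0 with hx'
    set W' : Submodule ℝ (V n) := W ⊓ LinearMap.ker (LinearMap.proj j : V n →ₗ[ℝ] ℝ) with hW'
    have hlt : W' < W := by
      refine lt_of_le_of_ne inf_le_left ?_
      intro h
      have h1 : d0 ∈ W' := by rw [h]; exact hd0W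
      have h2 := (Submodule.mem_inf.mp h1).2
      rw [LinearMap.mem_ker, LinearMap.proj_apply] at h2
      exact hj h2
    have hfr : Module.finrank ℝ W' < r := by
      rw [← hW]
      exact Submodule.finrank_lt_finrank_of_lt hlt
    have hx'W : ∀ᶠ k in (U : Filter ℕ), x' k ∈ W' := by
      filter_upwards [hx] with k hk
      refine Submodule.mem_inf.mpr ⟨W.sub_mem hk (W.smul_mem _ hd0W), ?_⟩
      rw [LinearMap.mem_ker, LinearMap.proj_apply]
      show x k j - (x k j / d0 j) * d0 j = 0
      rw [div_mul_cancel₀ _ hj, sub_self]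
    obtain ⟨m', d', lam', y', y0', e1, e2, e3, e4, e5, e6⟩ :=
      ih _ hfr W' rfl x' hx'W
    -- `x' / lam0 → 0`
    have hsmall : Tendsto (fun k => ‖x' k‖ / (x k j / d0 j)) U (𝓝 0) := by
      have h1 : Tendsto (fun k => ‖(‖x k‖⁻¹ • x k) - ((‖x k‖⁻¹ * x k j) / d0 j) • d0‖ /
          ((‖x k‖⁻¹ * x k j) / d0 j)) U (𝓝 (‖d0 - (1 : ℝ) • d0‖ / 1)) :=
        ((hd0.sub (hratio.smul_const d0)).norm).div hratio one_ne_zero
      rw [one_smul, sub_self, norm_zero, zero_div] at h1
      refine h1.congr' ?_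
      filter_upwards [hpos] with k hk
      have h2 : (‖x k‖⁻¹ • x k) - ((‖x k‖⁻¹ * x k j) / d0 j) • d0 = ‖x k‖⁻¹ • x' k := by
        rw [hx']
        simp only [smul_sub, smul_smul]
        rw [mul_div_assoc]
      rw [h2, norm_smul, norm_inv, norm_norm, mul_div_assoc (‖x k‖⁻¹) (x k j) (d0 j),
        mul_div_mul_left _ _ (inv_ne_zero hk.ne')]
    refine ⟨m' + 1, fun i => Nat.casesOn i d0 d', fun i => Nat.casesOn i (fun k => x k j / d0 j) lam',
      y', y0', ?_, ?_, ?_, fun _ => hd0n, e5, fun _ => ⟨|d0 j|⁻¹, ?_⟩⟩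
    · filter_upwards [e1] with k hk
      rw [Finset.sum_range_succ']
      have h1 : x k = x' k + (x k j / d0 j) • d0 := by rw [hx']; simp
      have h2 : x k = (∑ i ∈ Finset.range m', lam' i k • d' i + y' k) + (x k j / d0 j) • d0 := by
        rw [← hk]; exact h1
      have h3 : (∑ i ∈ Finset.range m', lam' i k • d' i + y' k) + (x k j / d0 j) • d0 =
          (∑ i ∈ Finset.range m', lam' i k • d' i + (x k j / d0 j) • d0) + y' k := by
        abel
      exact h2.trans h3
    · intro i hi
      cases i with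
      | zero => exact hlam
      | succ i => exact e2 i (by omega)
    · intro i hi
      cases i with
      | zero =>
        obtain ⟨K, hK⟩ := e6 (by omega)
        show Tendsto (fun k => lam' 0 k / (x k j / d0 j)) U (𝓝 0)
        rw [tendsto_zero_iff_abs_tendsto_zero]
        have hpos' : ∀ᶠ k in (U : Filter ℕ), 0 < x k j / d0 j :=
          hlam.eventually (eventually_gt_atTop 0)
        have h1 : Tendsto (fun k => K * (‖x' k‖ / (x k j / d0 j))) U (𝓝 0) := by
          have := hsmall.const_mul K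
          rwa [mul_zero] at this
        refine squeeze_zero' (Eventually.of_forall fun k => abs_nonneg _) ?_ h1
        filter_upwards [hK, hpos'] with k hk hk'
        show |lam' 0 k / (x k j / d0 j)| ≤ _
        rw [abs_div, abs_of_pos hk', ← mul_div_assoc]
        exact div_le_div_of_nonneg_right hk hk'.le
      | succ i => exact e3 i (by omega)
    · refine Eventually.of_forall fun k => ?_
      show |x k j / d0 j| ≤ _
      rw [abs_div, div_eq_inv_mul]
      refine mul_le_mul_of_nonneg_left ?_ (by positivity)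
      exact norm_le_pi_norm (x k) j

theorem t_FLAG : S_FLAG := by
  intro n U x
  obtain ⟨m, d, lam, y, y0, h1, h2, h3, h4, h5, -⟩ :=
    flag_aux n U _ ⊤ rfl x (Eventually.of_forall fun _ => Submodule.mem_top)
  exact ⟨m, d, lam, y, y0, h1, h2, h3, h4, h5⟩

end Pool.Agent.X191.TR
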